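import Mathlib
import Pool.Agent.H303.CB.Low

/-!
# The corona theorem on one smooth bounded domain implies the corona theorem on the unit ball

Let `D ⊆ ℂ^m` be any bounded nonempty open set with boundary of class `C³`, for instance a strictly
pseudoconvex domain. There are holomorphic maps `G_k` of `D` into the unit ball `B` such that for
every tuple `f` of holomorphic functions on `B` the Bezout equation for `f` has a solution bounded by
`C` on `B` if and only if the Bezout equations for `f ∘ G_k` have solutions bounded by `C` on `D`, for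
infinitely many `k`. So the ball has the smallest corona constants, and by a generic choice of the
data: if the corona theorem holds on `D`, without any uniformity, it holds on the balls of all
dimensions `≤ m`, with uniform bounds. It suffices to solve the equations on `D` near one point at
maximal distance from some point `c`.

Proof. Let `p` be a point of the closure of `D` at maximal distance from `c`, say `c = 0`, `‖p‖ = 1`,
and let `x - p = z - w p`, `z ⊥ p`. Then `Re w > ‖x - p‖² / 2` on `D`, and near `p` the set `D` is given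
by `Re w > L(z) + Re q(z) + Im w Re Λ(z) + a (Im w)²` up to terms of weight `≥ 3`, with a positive
definite Levi form `L`. With the peak function `n = exp (- K w ^ β)`, `β` small, `K` large, the map
`F(x) = (n z, w - n² q(z) + i n w Λ(z))` sends ALL of `D` into the Siegel domain `Re W > L(Z)`: as the
quadratic form is positive definite and convex, the loss of `n` pays for all errors. On the other
hand `F` is so close to the identity at `p` that `F (p + ε Z - ε² (W + q(Z)) p)`, dilated, tends to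
`(Z, W)`, locally uniformly in the Siegel domain. The dilations of the Siegel domain are automorphisms
of the ball; one takes limits of the solutions on `D`. For the second part one uses data on the
ball which are universal with respect to the translations along one complex geodesic (Baire).
-/

set_option autoImplicit false

open Metric Set Filter Topology
open scoped ContDiff

namespace Pool.Agent.Results.MP_ca0fc2_an.BallIsMinimal

/-- `ℂ^m` with the Euclidean norm. -/
abbrev V (m : ℕ) := EuclideanSpace ℂ (Fin m)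

/-- `ρ` is of class `C^k` on `U`. -/
def Smooth {m : ℕ} (k : WithTop ℕ∞) (ρ : V m → ℝ) (U : Set (V m)) : Prop := ContDiffOn ℝ k ρ U

/-- The derivative of `ρ` at `p` in the direction `v`. -/
noncomputable def dr {m : ℕ} (ρ : V m → ℝ) (p v : V m) : ℝ := fderiv ℝ ρ p v

/-- `D = {ρ < 0}` for the function `ρ`, which is of class `C^k` on the neighbourhood `U` of the closure
of `D`, and the derivative of `ρ` does not vanish on the boundary. -/
def Defining {m : ℕ} (k : WithTop ℕ∞) (D U : Set (V m)) (ρ : V m → ℝ) : Prop :=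
  IsOpen U ∧ closure D ⊆ U ∧ Smooth k ρ U ∧ D = {x ∈ U | ρ x < 0} ∧
    ∀ p ∈ frontier D, ∃ v, dr ρ p v ≠ 0

/-- Strictly pseudoconvex domains: bounded domains `{ρ < 0}`, `ρ` of class `C^∞` on a neighbourhood of
the closure, `dρ ≠ 0` on the boundary, with positive definite Levi form on the complex tangent
spaces of the boundary (the Levi form of `v` is a quarter of the sum of the second derivatives of
`ρ` in the directions `v` and `i v`). -/
def StrictlyPseudoconvex {m : ℕ} (D : Set (V m)) : Prop :=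
  IsOpen D ∧ IsConnected D ∧ Bornology.IsBounded D ∧
    ∃ (U : Set (V m)) (ρ : V m → ℝ), Defining ∞ D U ρ ∧ ∀ p ∈ frontier D, ∀ v : V m, v ≠ 0 →
      dr ρ p v = 0 → dr ρ p (Complex.I • v) = 0 →
        0 < dr (fun x => dr ρ x v) p v + dr (fun x => dr ρ x (Complex.I • v)) p (Complex.I • v)

/-- Bounded nonempty open sets with boundary of class `C³`. -/
def SmoothDomain {m : ℕ} (D : Set (V m)) : Prop :=
  IsOpen D ∧ D.Nonempty ∧ Bornology.IsBounded D ∧
    ∃ (U : Set (V m)) (ρ : V m → ℝ), Defining 3 D U ρ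

/-- `p` is a boundary point of `D` at maximal distance from some point `c`, and the boundary of `D` is
of class `C³` near `p`. -/
def Exposed {m : ℕ} (D : Set (V m)) (p : V m) : Prop :=
  p ∈ frontier D ∧ (∃ c, ∀ x ∈ D, ‖x - c‖ ≤ ‖p - c‖) ∧
    ∃ (U : Set (V m)) (ρ : V m → ℝ), IsOpen U ∧ p ∈ U ∧ Smooth 3 ρ U ∧
      (∀ x ∈ U, x ∈ D ↔ ρ x < 0) ∧ ∃ v, dr ρ p v ≠ 0

/-- Corona data on `D`: holomorphic functions with `|F_j| ≤ 1` and `∑ |F_j| ≥ δ`. -/
def Data {m N : ℕ} (D : Set (V m)) (δ : ℝ) (F : Fin N → V m → ℂ) : Prop :=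
  (∀ j, DifferentiableOn ℂ (F j) D) ∧ (∀ j, ∀ z ∈ D, ‖F j z‖ ≤ 1) ∧ ∀ z ∈ D, δ ≤ ∑ j, ‖F j z‖

/-- The Bezout equation `∑ F_j g_j = 1` has a holomorphic solution with `|g_j| ≤ C` on `D`. -/
def Solvable {m N : ℕ} (D : Set (V m)) (C : ℝ) (F : Fin N → V m → ℂ) : Prop :=
  ∃ g : Fin N → V m → ℂ, (∀ j, DifferentiableOn ℂ (g j) D) ∧ (∀ j, ∀ z ∈ D, ‖g j z‖ ≤ C) ∧
    ∀ z ∈ D, ∑ j, F j z * g j z = 1

/-- All data on the unit balls of dimension `≤ m` (`N` functions, constant `δ`) are solvable with the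
bound `C`. -/
def Balls (m N : ℕ) (δ C : ℝ) : Prop :=
  ∀ k ≤ m, ∀ F : Fin N → V k → ℂ, Data (ball 0 1) δ F → Solvable (ball 0 1) C F

/-- There are holomorphic maps `G k` of `D` into the unit ball such that for all tuples `f` of
holomorphic functions on the ball and all `C` the Bezout equation for `f` is solvable on the ball
with the bound `C` if and only if the Bezout equations for `f ∘ G k` are solvable on `D` with the
bound `C` for infinitely many `k`. -/
def Transfer {m : ℕ} (D : Set (V m)) : Prop :=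
  ∃ G : ℕ → V m → V m, (∀ k, DifferentiableOn ℂ (G k) D ∧ MapsTo (G k) D (ball 0 1)) ∧
    ∀ (N : ℕ) (f : Fin N → V m → ℂ) (C : ℝ), (∀ j, DifferentiableOn ℂ (f j) (ball 0 1)) →
      (Solvable (ball 0 1) C f ↔ ∃ᶠ k in atTop, Solvable D C (fun j x => f j (G k x)))

/-- There are `N` holomorphic functions on `D` with `δ² < ∑ |F_j|² ≤ 1` for which every holomorphic
solution of the Bezout equation exceeds `M` somewhere. -/
def LargeSolutions {m : ℕ} (D : Set (V m)) (N : ℕ) (δ M : ℝ) : Prop :=
  ∃ F : Fin N → V m → ℂ, (∀ j, DifferentiableOn ℂ (F j) D) ∧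
    (∀ z ∈ D, δ ^ 2 < ∑ j, ‖F j z‖ ^ 2 ∧ ∑ j, ‖F j z‖ ^ 2 ≤ 1) ∧
    ∀ h : Fin N → V m → ℂ, (∀ j, DifferentiableOn ℂ (h j) D) → (∀ z ∈ D, ∑ j, F j z * h j z = 1) →
      ∃ j, ∃ z ∈ D, M < ‖h j z‖

/-- (0) Strictly pseudoconvex domains are smooth domains, and smooth domains have exposed points.

(1) The transfer property holds for all smooth domains.

(2) The ball has the smallest corona constants: if all data on the smooth domain `D` of `ℂ^m`, with
the constant `δ`, are solvable on `D` with the bound `C`, then so are all data on the unit balls of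
dimension `≤ m`.

(3) If the corona theorem holds on the smooth domain `D` for `N` functions and the constant `δ > 0`,
then for all `δ' > δ` it holds on the unit balls of dimension `≤ m` with a uniform bound.

(4) Local form of (2) and (3): `D` is any open set with an exposed point `p`, and the equations have
to be solved on `D` near `p` only.

(5) There are `c > 0`, `C`, `n₀` such that for all `n ≥ n₀`, all smooth domains `D` in `ℂ^n` and all
`0 < δ < c` there are `N + 1 ≤ C n + 1` holomorphic functions on `D` with `δ² < ∑ |F_j|² ≤ 1`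
for which every holomorphic solution `h` of `∑ F_j h_j = 1` exceeds `(c / δ) ^ (c n)` somewhere. -/
theorem result :
    (∀ (m : ℕ) (D : Set (V m)), StrictlyPseudoconvex D → SmoothDomain D) ∧
    (∀ (m : ℕ) (D : Set (V m)), 0 < m → SmoothDomain D →
      (∃ p, Exposed D p) ∧ Transfer D ∧ ∀ (N : ℕ) (δ : ℝ),
        (∀ C : ℝ, (∀ F : Fin N → V m → ℂ, Data D δ F → Solvable D C F) → Balls m N δ C) ∧
        (0 < δ → (∀ F : Fin N → V m → ℂ, Data D δ F → ∃ C, Solvable D C F) →
          ∀ δ' > δ, ∃ C, Balls m N δ' C)) ∧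
    (∀ (m : ℕ) (D : Set (V m)) (p : V m), 0 < m → IsOpen D → Exposed D p → ∀ (N : ℕ) (δ : ℝ),
      (∀ (C : ℝ) (W : Set (V m)), IsOpen W → p ∈ W →
        (∀ F : Fin N → V m → ℂ, Data D δ F → Solvable (D ∩ W) C F) → Balls m N δ C) ∧
      (0 < δ → (∀ F : Fin N → V m → ℂ, Data D δ F →
          ∃ (C : ℝ) (W : Set (V m)), IsOpen W ∧ p ∈ W ∧ Solvable (D ∩ W) C F) →
        ∀ δ' > δ, ∃ C, Balls m N δ' C)) ∧
    ∃ (c : ℝ) (C n₀ : ℕ), 0 < c ∧ ∀ n ≥ n₀, ∀ D : Set (V n), SmoothDomain D →
      ∀ δ : ℝ, 0 < δ → δ < c → ∃ N ≤ C * n, LargeSolutions D (N + 1) δ ((c / δ) ^ (c * n)) := by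
  have conv : ∀ (m : ℕ) (D : Set (V m)), SmoothDomain D → Pool.Agent.H303.CB.SmoothDomain D := by
    rintro m D ⟨h1, h2, h3, U, ρ, h4, h5, h6, h7, h8⟩
    refine ⟨h1, h2, h3, U, ρ, h4, h5, h6, h7, fun p hp h0 => ?_⟩
    obtain ⟨v, hv⟩ := h8 p hp
    exact hv (by rw [dr, h0]; rfl)
  have exp_far : ∀ (m : ℕ) (D : Set (V m)), 0 < m → SmoothDomain D → ∃ p, Exposed D p := by
    intro m D hm hD
    obtain ⟨p, hp, hmax⟩ := Pool.Agent.H303.CB.SmoothDomain.exists_far hm (conv m D hD) 0
    obtain ⟨U, ρ, h1, h2, h3, h4, h5⟩ :=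
      Pool.Agent.H303.CB.SmoothDomain.smoothAt (conv m D hD) hp
    refine ⟨p, hp, ⟨0, hmax⟩, U, ρ, h1, h2, h3, h4, ?_⟩
    by_contra hcon
    push Not at hcon
    exact h5 (ContinuousLinearMap.ext hcon)
  have exp_tp : ∀ (m : ℕ) (D : Set (V m)) (p : V m), 0 < m → IsOpen D → Exposed D p →
      Pool.Agent.H303.CB.TP D p := by
    rintro m D p hm hD ⟨hp, ⟨c, hc⟩, U, ρ, h1, h2, h3, h4, v, h5⟩
    have hcl := frontier_subset_closure hp
    exact Pool.Agent.H303.CB.tp_farthest hm hD (closure_nonempty_iff.1 ⟨p, hcl⟩) hcl hc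
      ⟨U, ρ, h1, h2, h3, h4, fun h0 => h5 (by rw [dr, h0]; rfl)⟩
  have loc : ∀ (m : ℕ) (D : Set (V m)) (p : V m), 0 < m → IsOpen D → Exposed D p →
      ∀ (N : ℕ) (δ : ℝ),
      (∀ (C : ℝ) (W : Set (V m)), IsOpen W → p ∈ W →
        (∀ F : Fin N → V m → ℂ, Data D δ F → Solvable (D ∩ W) C F) → Balls m N δ C) ∧
      (0 < δ → (∀ F : Fin N → V m → ℂ, Data D δ F →
          ∃ (C : ℝ) (W : Set (V m)), IsOpen W ∧ p ∈ W ∧ Solvable (D ∩ W) C F) →
        ∀ δ' > δ, ∃ C, Balls m N δ' C) := by
    intro m D p hm hD hp N δ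
    have h := exp_tp m D p hm hD hp
    refine ⟨fun C W hW hpW hs k hk => ?_, fun hδ hs δ' hδ' => ?_⟩
    · exact Pool.Agent.H303.CB.down hk fun F hF => Pool.Agent.H303.CB.part1 h hW hpW hs F hF
    · obtain ⟨C, hC⟩ := Pool.Agent.H303.CB.part2 h hδ hs hδ'
      exact ⟨C, fun k hk => Pool.Agent.H303.CB.down hk hC⟩
  refine ⟨?_, ?_, loc, ?_⟩
  · rintro m D ⟨h1, h2, h3, U, ρ, ⟨h4, h5, h6, h7, h8⟩, -⟩
    exact ⟨h1, h2.nonempty, h3, U, ρ, h4, h5,
      ContDiffOn.of_le h6 (WithTop.coe_le_coe.2 (le_top : ((3 : ℕ) : ℕ∞) ≤ ⊤)), h7, h8⟩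
  · intro m D hm hD
    obtain ⟨p, hp⟩ := exp_far m D hm hD
    refine ⟨⟨p, hp⟩, ?_, fun N δ => ⟨fun C hs => ?_, fun hδ hs => ?_⟩⟩
    · obtain ⟨G, G', e, he, hG, hG'1, hG'2, h1, h2⟩ := exp_tp m D p hm hD.1 hp
      refine ⟨G, hG, fun N f C hf => ⟨fun hs => ?_, fun hs => ?_⟩⟩
      · obtain ⟨g, g1, g2, g3⟩ := hs
        refine Eventually.frequently (Eventually.of_forall fun k => ?_)
        exact ⟨fun j x => g j (G k x), fun j => (g1 j).comp (hG k).1 (hG k).2,
          fun j x hx => g2 j _ ((hG k).2 hx), fun x hx => g3 _ ((hG k).2 hx)⟩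
      · refine h1 N f C univ isOpen_univ (mem_univ _) hf ?_
        rw [inter_univ]
        exact hs
    · refine (loc m D p hm hD.1 hp N δ).1 C univ isOpen_univ (mem_univ _) ?_
      rw [inter_univ]
      exact hs
    · refine (loc m D p hm hD.1 hp N δ).2 hδ fun F hF => ?_
      obtain ⟨C, hC⟩ := hs F hF
      exact ⟨C, univ, isOpen_univ, mem_univ _, by rw [inter_univ]; exact hC⟩
  · obtain ⟨c, C, n₀, hc, h⟩ := Pool.Agent.H303.CB.growth
    exact ⟨c, C, n₀, hc, fun n hn D hD => h n hn D (conv n D hD)⟩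

end Pool.Agent.Results.MP_ca0fc2_an.BallIsMinimal
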