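import Mathlib
import Pool.Agent.H191.Corona.OscB

/-!
# Contact of order two: a threshold for the corona theorem on strictly pseudoconvex domains of `ℂ²`

Let `D ⊆ ℂ²` be a bounded strictly pseudoconvex open set.

1. *Contact of order two.* We prove the corona theorem, with uniform bounds, for data which near each
boundary point `p` contain a subfamily which is bounded below near `p` and extends to the points `z`
with `dist(z, D) < κ |z - p|²`, for some `κ > 0` (however small). At a point where `D` is spherical one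
function of the subfamily is arbitrary, and nothing is assumed at the points near which one of the
functions is bounded below. In particular the corona theorem holds for the restrictions to `D` of the
data on any set `Ω ⊇ D` which has contact of order (at most) two with `D` at the boundary points of `D`:
`dist(z, D) < κ |z - p|²` and `z` near `p` imply `z ∈ Ω`.

2. *The order two is sharp, at every boundary point.* Let the boundary of `D` be of class `C³`, `p` a
boundary point and `κ` a function with `κ(t) / t² → 0` (`t → 0`). There are strictly pseudoconvex sets `Ω`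
arbitrarily close to `D` which contain `D` and all boundary points other than `p`, and near `p` all
points `z ≠ p` with `dist(z, D) < κ(|z - p|)`, such that the corona theorem on `D` for the restrictions of
the data on the single set `Ω`, even with solutions near `p` only, implies the corona theorem with
uniform constants for all data on the ball. If `D` is spherical at `p` (at all boundary points, for
instance the ball), then this is an equivalence for solutions near `p` (on `D`).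

Proof of 1. Local biholomorphic maps osculate `D` at `p` to the ball at `(1, 0)`, to second order in the
sense that the defining function is `|z|² - 1 + o(|z - (1, 0)|²)`; data on a larger set with contact
of order two become data on a larger ball which is internally tangent; on the ball the theorem
(library, `TouchingDomains`) applies. A dilation takes care of the error `o`. The local solutions are
glued with the characters of an algebra of families (library `P157G`; `Core` of the hand-in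
`GermsOfTheBoundary`).

Proof of 2. Let `D = {ρ < 0}`. There is a function `h ≥ 0` of class `C²` which is `o(|z - p|²)`, positive
for `z ≠ p`, and larger than `C κ(|z - p|)` near `p` for all `C` (`Maj`: twofold averages of a monotone
majorant). For small `ε > 0` the set `Ω = {ρ - ε h < 0}` is strictly pseudoconvex. The germ of `D` at `p` is
mapped by a biholomorphic map `φ` onto a germ at `(1, 0)` which is contained in a ball, and the points of
`φ(Ω)` near `(1, 0)` are at a distance `o(|z - (1, 0)|²)` from the image of `D`. The theorem of helper272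
(`Pool/Agent/H272/OSP`) gives data on a neighbourhood of the image of this germ of `Ω` whose solutions on
the image of `D` near `(1, 0)` give solutions for all data on the ball. The localisation of `P157G` on
`Ω` turns these local data into global data on `Ω`. Part 2 is joint work with helper272, who proved the
case of exposed boundary points (with `Ω` open).
-/

set_option autoImplicit false

open Metric Set Filter Topology

namespace Pool.Agent.Results.MP_ca0fc2_an.ContactOfOrderTwo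

/-- `D` is a bounded strictly pseudoconvex open set with boundary of class `C^k`: `D = {z ∈ O | ρ z < 0}`
for some `ρ` of class `C^k` on a neighbourhood `O` of the closure of `D`, and at every boundary point `p`
the differential of `ρ` is not zero and the Levi form of `ρ` is positive on the complex tangent
vectors `v ≠ 0` (`dρ(v) = dρ(iv) = 0`). The quantity `D²ρ(v, v) + D²ρ(iv, iv)` is
`4 ∑ ∂²ρ/∂z_j∂z̄_k v_j v̄_k`. -/
structure StrictlyPseudoconvex (k : ℕ∞) (D : Set (ℂ × ℂ)) : Prop where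
  bounded : Bornology.IsBounded D
  defining : ∃ (O : Set (ℂ × ℂ)) (ρ : ℂ × ℂ → ℝ), IsOpen O ∧ closure D ⊆ O ∧ ContDiffOn ℝ k ρ O ∧
    D = {z | z ∈ O ∧ ρ z < 0} ∧ ∀ p ∈ frontier D, fderiv ℝ ρ p ≠ 0 ∧
      ∀ v : ℂ × ℂ, v ≠ 0 → fderiv ℝ ρ p v = 0 → fderiv ℝ ρ p (Complex.I • v) = 0 →
        0 < fderiv ℝ (fderiv ℝ ρ) p v v + fderiv ℝ (fderiv ℝ ρ) p (Complex.I • v) (Complex.I • v)

/-- `g` is holomorphic on `A` and `|g| ≤ C` there. -/
def HolBdd (A : Set (ℂ × ℂ)) (C : ℝ) (g : ℂ × ℂ → ℂ) : Prop :=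
  DifferentiableOn ℂ g A ∧ ∀ z ∈ A, ‖g z‖ ≤ C

/-- The Euclidean norm of `ℂ²`. -/
noncomputable def norm2 (z : ℂ × ℂ) : ℝ := √(‖z.1‖ ^ 2 + ‖z.2‖ ^ 2)

/-- The unit ball of `ℂ²`. -/
def Ball : Set (ℂ × ℂ) := {z | ‖z.1‖ ^ 2 + ‖z.2‖ ^ 2 < 1}

/-- A family of corona data on `D`: `|F_{i,j}| ≤ 1` and `∑_j |F_{i,j}| ≥ δ` on `D` for all `i`. -/
def Data {I : Type} {N : ℕ} (D : Set (ℂ × ℂ)) (δ : ℝ) (F : I → Fin N → ℂ × ℂ → ℂ) : Prop :=
  ∀ i, (∀ j, HolBdd D 1 (F i j)) ∧ ∀ z ∈ D, δ ≤ ∑ j, ‖F i j z‖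

/-- The equations `∑_j F_{i,j} g_{i,j} = 1` have solutions in `H^∞(D)` with a common bound. -/
def Solvable {I : Type} {N : ℕ} (D : Set (ℂ × ℂ)) (F : I → Fin N → ℂ × ℂ → ℂ) : Prop :=
  ∃ C : ℝ, ∀ i, ∃ g : Fin N → ℂ × ℂ → ℂ, (∀ j, HolBdd D C (g j)) ∧
    ∀ z ∈ D, ∑ j, F i j z * g j z = 1

/-- The corona theorem on `D` for (the restrictions to `D` of) data on `Ω`. -/
def Corona (Ω D : Set (ℂ × ℂ)) : Prop :=
  ∀ (N : ℕ) (f : Fin N → ℂ × ℂ → ℂ) (δ : ℝ), 0 < δ → (∀ j, ∃ M, HolBdd Ω M (f j)) →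
    (∀ z ∈ Ω, δ < ∑ j, ‖f j z‖ ^ 2) →
    ∃ h : Fin N → ℂ × ℂ → ℂ, (∀ j, ∃ C, HolBdd D C (h j)) ∧ ∀ z ∈ D, ∑ j, f j z * h j z = 1

/-- The corona theorem on `D` near `p` for data on `Ω`: bounded solutions on `D ∩ ball p s`, `s > 0`. -/
def LocalCorona (Ω D : Set (ℂ × ℂ)) (p : ℂ × ℂ) : Prop :=
  ∀ (N : ℕ) (f : Fin N → ℂ × ℂ → ℂ) (δ : ℝ), 0 < δ → (∀ j, ∃ M, HolBdd Ω M (f j)) →
    (∀ z ∈ Ω, δ < ∑ j, ‖f j z‖ ^ 2) → ∃ s : ℝ, 0 < s ∧
    ∃ h : Fin N → ℂ × ℂ → ℂ, (∀ j, ∃ C, HolBdd (D ∩ ball p s) C (h j)) ∧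
      ∀ z ∈ D ∩ ball p s, ∑ j, f j z * h j z = 1

/-- The corona theorem on `D` for bounded holomorphic functions on `Ω` which are bounded below on `D`,
with constants depending on the number of functions and on `δ` only. -/
def UniformCorona (Ω D : Set (ℂ × ℂ)) : Prop :=
  ∀ (N : ℕ) (δ : ℝ), 0 < δ → ∃ C : ℝ, ∀ f : Fin N → ℂ × ℂ → ℂ, (∀ j, HolBdd Ω 1 (f j)) →
    (∀ z ∈ D, δ ≤ ∑ j, ‖f j z‖) →
    ∃ h : Fin N → ℂ × ℂ → ℂ, (∀ j, HolBdd D C (h j)) ∧ ∀ z ∈ D, ∑ j, f j z * h j z = 1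

/-- `D` is spherical at `p`: a biholomorphic map `φ` of a neighbourhood `U` of `p` onto a neighbourhood
`V` of `φ p = (1, 0)` maps `U ∩ D` onto `V ∩ Ball`. -/
def Spherical (D : Set (ℂ × ℂ)) (p : ℂ × ℂ) : Prop :=
  ∃ (φ ψ : ℂ × ℂ → ℂ × ℂ) (U V : Set (ℂ × ℂ)), IsOpen U ∧ IsOpen V ∧ p ∈ U ∧ φ p = (1, 0) ∧
    DifferentiableOn ℂ φ U ∧ DifferentiableOn ℂ ψ V ∧ MapsTo φ U V ∧ MapsTo ψ V U ∧
    (∀ z ∈ U, ψ (φ z) = z) ∧ (∀ w ∈ V, φ (ψ w) = w) ∧ ∀ z ∈ U, z ∈ D ↔ φ z ∈ Ball

/-- The points `z` near `p` whose distance from `D` is less than `κ |z - p|²` (maximum norm). -/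
def Touching (D : Set (ℂ × ℂ)) (p : ℂ × ℂ) (r κ : ℝ) : Set (ℂ × ℂ) :=
  {z | z ∈ ball p r ∧ ∃ w ∈ D, ‖z - w‖ < κ * ‖z - p‖ ^ 2}

/-- Near `p` the functions with indices in `S` are bounded below on `D`, and those with indices in
`S \ T` extend to bounded holomorphic functions on the touching set. `T` is empty, or it has one element
and `D` is spherical at `p` or `S = T` (then no extension is required and the function with index in
`S` is bounded below). The constants do not depend on `i`. -/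
def Good {I : Type} {N : ℕ} (D : Set (ℂ × ℂ)) (F : I → Fin N → ℂ × ℂ → ℂ) (p : ℂ × ℂ) : Prop :=
  ∃ (S T : Finset (Fin N)) (r κ c M : ℝ), 0 < r ∧ 0 < κ ∧ 0 < c ∧
    (T = ∅ ∨ T.card = 1 ∧ (S = T ∨ Spherical D p)) ∧
    (∀ i, ∀ z ∈ D ∩ ball p r, c ≤ ∑ j ∈ S, ‖F i j z‖) ∧
    ∀ i, ∀ j ∈ S \ T, ∃ h, HolBdd (Touching D p r κ) M h ∧ ∀ z ∈ D ∩ ball p r, F i j z = h z

/-- All points `z ≠ p` near `p` whose distance from `D` is less than `κ(|z - p|)` are in `Ω`
(Euclidean norm). -/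
def Contact (D Ω : Set (ℂ × ℂ)) (p : ℂ × ℂ) (κ : ℝ → ℝ) : Prop :=
  ∃ r : ℝ, 0 < r ∧ ∀ z, z ≠ p → norm2 (z - p) < r →
    ∀ w ∈ D, norm2 (z - w) < κ (norm2 (z - p)) → z ∈ Ω

theorem ball_eq : Ball = Pool.Agent.H191.Corona.B2 := by
  ext z
  show ‖z.1‖ ^ 2 + ‖z.2‖ ^ 2 < 1 ↔ ‖z.1‖ ^ 2 + ‖z.2‖ ^ 2 - 1 < 0
  rw [sub_neg]

theorem tangent {ρ : ℂ × ℂ → ℝ} {p v : ℂ × ℂ} (h : Pool.Agent.P157G.dd ρ p v = 0) :
    fderiv ℝ ρ p v = 0 ∧ fderiv ℝ ρ p (Complex.I • v) = 0 := by
  have h1 : ∀ u, 2 * (Pool.Agent.P157G.dd ρ p u).re = fderiv ℝ ρ p u := fun u =>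
    Pool.Agent.P157G.G5z_lin (fderiv ℝ ρ p) u
  have h2 : Pool.Agent.P157G.dd ρ p (Complex.I • v) = Complex.I * Pool.Agent.P157G.dd ρ p v := by
    unfold Pool.Agent.P157G.dd
    simp only [Prod.smul_fst, Prod.smul_snd, smul_eq_mul]
    ring
  refine ⟨?_, ?_⟩
  · rw [← h1 v, h]
    simp
  · rw [← h1, h2, h]
    simp

theorem StrictlyPseudoconvex.nf {k : ℕ∞} (hk : 2 ≤ k) {D : Set (ℂ × ℂ)}
    (hD : StrictlyPseudoconvex k D) : ∃ ρ, Pool.Agent.P157G.NF ρ ∧ D = {x | ρ x < 0} := by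
  obtain ⟨O, ρ, hO, hcl, hρ, hDO, hp⟩ := hD.defining
  exact Pool.Agent.P157G.nf_of hD.bounded hO hcl (hρ.of_le (WithTop.coe_le_coe.2 hk)) hDO
    (fun p hpf => (hp p hpf).1)
    (fun p hpf v hv hdd => (hp p hpf).2 v hv (tangent hdd).1 (tangent hdd).2)

theorem Good.good {I : Type} {N : ℕ} {D : Set (ℂ × ℂ)} {F : I → Fin N → ℂ × ℂ → ℂ} {p : ℂ × ℂ}
    (h : Good D F p) : Pool.Agent.H191.Corona.Good D F p := by
  obtain ⟨S, T, r, κ, c, M, hr, hκ, hc, hT, h1, h2⟩ := h
  refine ⟨S, T, r, κ, c, M, hr, hκ, hc, ?_, h1, h2⟩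
  rcases hT with hT | ⟨hT, hT' | hT'⟩
  · exact Or.inl hT
  · exact Or.inr ⟨hT, Or.inl hT'⟩
  · refine Or.inr ⟨hT, Or.inr ?_⟩
    unfold Spherical at hT'
    rw [ball_eq] at hT'
    exact hT'

theorem uniform_ball (h : Pool.Agent.H191.Corona.UnifV) : UniformCorona Ball Ball := by
  intro N δ hδ
  have h1 := Pool.Agent.H191.Corona.unif_cor h {f : Fin N → ℂ × ℂ → ℂ // (∀ j, HolBdd Ball 1 (f j)) ∧
    ∀ z ∈ Ball, δ ≤ ∑ j, ‖f j z‖}
  rw [← ball_eq] at h1
  obtain ⟨C, hC⟩ := h1 N δ (fun f => f.1) hδ (fun f => f.2)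
  exact ⟨C, fun f h2 h3 => hC ⟨f, h2, h3⟩⟩

/-- uniform bounds imply the corona theorem for single data -/
theorem corona_of_uniform {Ω D : Set (ℂ × ℂ)} (hΩ : D ⊆ Ω) (hu : UniformCorona Ω D) :
    Corona Ω D := by
  intro N f δ hδ hf hlow
  choose M hM using hf
  have hS : ∀ j, |M j| ≤ ∑ l, |M l| := fun j =>
    Finset.single_le_sum (f := fun l => |M l|) (fun l _ => abs_nonneg _) (Finset.mem_univ j)
  set S : ℝ := 1 + ∑ l, |M l| with hSdef
  have hS0 : 0 ≤ ∑ l, |M l| := Finset.sum_nonneg fun l _ => abs_nonneg _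
  have hS1 : 1 ≤ S := by linarith
  have hSp : 0 < S := by linarith
  have hb : ∀ j, ∀ z ∈ Ω, ‖f j z‖ ≤ S := fun j z hz => by
    have h1 := (hM j).2 z hz
    have h2 := le_abs_self (M j)
    have h3 := hS j
    linarith
  have hn : ∀ j z, ‖(S : ℂ)⁻¹ * f j z‖ = S⁻¹ * ‖f j z‖ := fun j z => by
    rw [norm_mul, norm_inv, Complex.norm_real, Real.norm_of_nonneg hSp.le]
  obtain ⟨C, hC⟩ := hu N (δ / S ^ 2) (by positivity)
  obtain ⟨g, hg, he⟩ := hC (fun j z => (S : ℂ)⁻¹ * f j z)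
    (fun j => ⟨(hM j).1.const_mul _, fun z hz => by
      rw [hn, inv_mul_le_iff₀ hSp, mul_one]; exact hb j z hz⟩) (fun z hz => by
      have h1 := hlow z (hΩ hz)
      have h2 : ∑ j, ‖f j z‖ ^ 2 ≤ S ^ 2 * ∑ j, ‖(S : ℂ)⁻¹ * f j z‖ := by
        rw [Finset.mul_sum]
        refine Finset.sum_le_sum fun j _ => ?_
        rw [hn]
        have h3 : S ^ 2 * (S⁻¹ * ‖f j z‖) = S * ‖f j z‖ := by
          field_simp
        rw [h3, sq]
        exact mul_le_mul_of_nonneg_right (hb j z (hΩ hz)) (norm_nonneg _)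
      rw [div_le_iff₀ (by positivity), mul_comm]
      exact h1.le.trans h2)
  refine ⟨fun j z => (S : ℂ)⁻¹ * g j z, fun j => ⟨S⁻¹ * C, (hg j).1.const_mul _, fun z hz => ?_⟩,
    fun z hz => ?_⟩
  · rw [norm_mul, norm_inv, Complex.norm_real, Real.norm_of_nonneg hSp.le]
    exact mul_le_mul_of_nonneg_left ((hg j).2 z hz) (by positivity)
  · rw [← he z hz]
    refine Finset.sum_congr rfl fun j _ => ?_
    ring

theorem StrictlyPseudoconvex.of_nf {k : ℕ∞} {r : ℂ × ℂ → ℝ} (hr : ContDiff ℝ k r)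
    (h : Pool.Agent.P157G.NF r) : StrictlyPseudoconvex k {z | r z < 0} := by
  refine ⟨h.bdd.subset fun z (hz : r z < 0) => hz.le, univ, r, isOpen_univ, subset_univ _,
    hr.contDiffOn, by ext z; simp, fun p hp => ?_⟩
  have hp0 : r p = 0 := frontier_lt_subset_eq h.smooth.continuous continuous_const hp
  exact ⟨h.nd p hp0, fun v hv h1 h2 => h.levi p hp0 v hv (Pool.Agent.P157G.G7b1_dd r p v h1 h2)⟩

theorem spherical_ball {q : ℂ × ℂ} (hq : q ∈ frontier Ball) : Spherical Ball q := by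
  unfold Spherical
  rw [ball_eq] at hq ⊢
  exact Pool.Agent.H191.Corona.geq_ball (Pool.Agent.H191.Corona.frontier_B2 hq)

theorem one_mem_frontier : ((1 : ℂ), (0 : ℂ)) ∈ frontier Pool.Agent.H191.Corona.B2 := by
  have ho : IsOpen Pool.Agent.H191.Corona.B2 := Pool.Agent.H191.Corona.B2_open
  rw [ho.frontier_eq]
  refine ⟨?_, ?_⟩
  · rw [Metric.mem_closure_iff]
    intro ε hε
    refine ⟨(((1 - min (ε / 2) 1 : ℝ) : ℂ), 0), ?_, ?_⟩
    · show ‖((1 - min (ε / 2) 1 : ℝ) : ℂ)‖ ^ 2 + ‖(0 : ℂ)‖ ^ 2 - 1 < 0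
      have h1 : 0 < min (ε / 2) 1 := lt_min (by linarith) one_pos
      have h2 : min (ε / 2) 1 ≤ 1 := min_le_right _ _
      rw [Complex.norm_real, Real.norm_eq_abs, sq_abs, norm_zero]
      nlinarith
    · rw [Prod.dist_eq, max_lt_iff]
      have h1 : 0 < min (ε / 2) 1 := lt_min (by linarith) one_pos
      have h2 : min (ε / 2) 1 ≤ ε / 2 := min_le_left _ _
      constructor
      · show dist (1 : ℂ) ((1 - min (ε / 2) 1 : ℝ) : ℂ) < ε
        rw [Complex.dist_eq]
        have h3 : (1 : ℂ) - ((1 - min (ε / 2) 1 : ℝ) : ℂ) = ((min (ε / 2) 1 : ℝ) : ℂ) := by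
          push_cast; ring
        rw [h3, Complex.norm_real, Real.norm_of_nonneg h1.le]
        linarith
      · show dist (0 : ℂ) 0 < ε
        rw [dist_self]; exact hε
  · intro h
    have h1 : ‖(1 : ℂ)‖ ^ 2 + ‖(0 : ℂ)‖ ^ 2 - 1 < 0 := h
    simp at h1

/-- local solutions for data on `D` near `p` give local solutions for data on `Ω` -/
theorem local_of_lcor {Ω D : Set (ℂ × ℂ)} {p : ℂ × ℂ} (hΩ : D ⊆ Ω)
    (hl : Pool.Agent.H191.Corona.LCor Unit D p) : LocalCorona Ω D p := by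
  intro N f δ hδ hf hlow
  choose M hM using hf
  have hS : ∀ j, |M j| ≤ ∑ l, |M l| := fun j =>
    Finset.single_le_sum (f := fun l => |M l|) (fun l _ => abs_nonneg _) (Finset.mem_univ j)
  set S : ℝ := 1 + ∑ l, |M l| with hSdef
  have hS0 : 0 ≤ ∑ l, |M l| := Finset.sum_nonneg fun l _ => abs_nonneg _
  have hS1 : 1 ≤ S := by linarith
  have hSp : 0 < S := by linarith
  have hb : ∀ j, ∀ z ∈ Ω, ‖f j z‖ ≤ S := fun j z hz => by
    have h1 := (hM j).2 z hz
    have h2 := le_abs_self (M j)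
    have h3 := hS j
    linarith
  have hn : ∀ j z, ‖(S : ℂ)⁻¹ * f j z‖ = S⁻¹ * ‖f j z‖ := fun j z => by
    rw [norm_mul, norm_inv, Complex.norm_real, Real.norm_of_nonneg hSp.le]
  have hsub : D ∩ ball p 1 ⊆ Ω := fun z hz => hΩ hz.1
  obtain ⟨s, hs, C, hC⟩ := hl N (δ / S ^ 2) 1 (fun _ j z => (S : ℂ)⁻¹ * f j z) (by positivity)
    one_pos (fun _ => ⟨fun j => ⟨((hM j).1.mono hsub).const_mul _, fun z hz => by
      rw [hn, inv_mul_le_iff₀ hSp, mul_one]; exact hb j z (hsub hz)⟩, fun z hz => by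
      have h1 := hlow z (hsub hz)
      have h2 : ∑ j, ‖f j z‖ ^ 2 ≤ S ^ 2 * ∑ j, ‖(S : ℂ)⁻¹ * f j z‖ := by
        rw [Finset.mul_sum]
        refine Finset.sum_le_sum fun j _ => ?_
        rw [hn]
        have h3 : S ^ 2 * (S⁻¹ * ‖f j z‖) = S * ‖f j z‖ := by
          field_simp
        rw [h3, sq]
        exact mul_le_mul_of_nonneg_right (hb j z (hsub hz)) (norm_nonneg _)
      rw [div_le_iff₀ (by positivity), mul_comm]
      exact h1.le.trans h2⟩)
  obtain ⟨g, hg, he⟩ := hC ()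
  refine ⟨s, hs, fun j z => (S : ℂ)⁻¹ * g j z, fun j => ⟨S⁻¹ * C, (hg j).1.const_mul _,
    fun z hz => ?_⟩, fun z hz => ?_⟩
  · rw [norm_mul, norm_inv, Complex.norm_real, Real.norm_of_nonneg hSp.le]
    exact mul_le_mul_of_nonneg_left ((hg j).2 z hz) (by positivity)
  · rw [← he z hz]
    refine Finset.sum_congr rfl fun j _ => ?_
    ring

theorem cor_ball (hu : UniformCorona Ball Ball) (I : Type) :
    Pool.Agent.H191.Corona.Cor I Pool.Agent.H191.Corona.B2 := by
  intro N δ F hδ hF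
  rw [← ball_eq] at hF ⊢
  obtain ⟨C, hC⟩ := hu N δ hδ
  exact ⟨C, fun i => hC (F i) (hF i).1 (hF i).2⟩

theorem lcor_spherical {D : Set (ℂ × ℂ)} {q : ℂ × ℂ} (hq : Spherical D q)
    (hu : UniformCorona Ball Ball) (I : Type) : Pool.Agent.H191.Corona.LCor I D q := by
  unfold Spherical at hq
  rw [ball_eq] at hq
  have h2 : Pool.Agent.H191.Corona.GEq D q Pool.Agent.H191.Corona.B2 (1, 0) := hq
  exact (h2.iff I).2 ((Pool.Agent.H191.Corona.cor_iff Pool.Agent.H191.Corona.nf_mB I).1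
    (cor_ball hu I) (1, 0) one_mem_frontier)

/-- spherical boundary: from uniform bounds on the ball to `D` -/
theorem corona_spherical {ρ : ℂ × ℂ → ℝ} (hρ : Pool.Agent.P157G.NF ρ)
    (hs : ∀ q ∈ frontier {x | ρ x < 0}, Spherical {x | ρ x < 0} q) {Ω : Set (ℂ × ℂ)}
    (hΩ : {x | ρ x < 0} ⊆ Ω) (hu : UniformCorona Ball Ball) : Corona Ω {x | ρ x < 0} := by
  have hDI : ∀ I : Type, Pool.Agent.H191.Corona.Cor I {x | ρ x < 0} := fun I =>
    (Pool.Agent.H191.Corona.cor_iff hρ I).2 fun q hq => lcor_spherical (hs q hq) hu I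
  refine corona_of_uniform hΩ fun N δ hδ => ?_
  obtain ⟨C, hC⟩ := hDI {f : Fin N → ℂ × ℂ → ℂ // (∀ j, HolBdd {x | ρ x < 0} 1 (f j)) ∧
    ∀ z ∈ {x | ρ x < 0}, δ ≤ ∑ j, ‖f j z‖} N δ (fun f => f.1) hδ (fun f => f.2)
  exact ⟨C, fun f hf hl => hC ⟨f, fun j => ⟨(hf j).1.mono hΩ, fun z hz => (hf j).2 z (hΩ hz)⟩, hl⟩⟩

/-- **Contact of order two is the threshold for the corona theorem on strictly pseudoconvex domains.**

(1) Let `D ⊆ ℂ²` be bounded and strictly pseudoconvex, with boundary of class `C^k`, `k ≥ 2`. Families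
of corona data which are good at all boundary points have bounded solutions on `D`, with a common
bound. If `Ω ⊇ D` has contact `c t²` with `D` at all boundary points, `c > 0` depending on the point,
then the corona theorem, with uniform bounds, holds on `D` for bounded holomorphic functions on `Ω`
(bounded below on `D`).

(2) Let `k ≥ 3`. For every boundary point `p` of `D`, every `κ` with `κ(t) / t² → 0` and every `e > 0` there
is a strictly pseudoconvex `Ω` (with boundary of class `C²`) in the `e`-neighbourhood of `D` which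
contains `D` and all boundary points other than `p` and has contact `κ` with `D` at `p`, such that the
corona theorem on `D` for data on `Ω`, even with solutions on `D` near `p` only, implies the corona
theorem with uniform constants on the ball. If `D` is spherical at `p`, this is an equivalence for
solutions near `p`, and if `D` is spherical at all boundary points, also for solutions on `D`.

(3) The ball is strictly pseudoconvex and spherical at all boundary points. -/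
theorem result :
    (∀ k : ℕ∞, 2 ≤ k → ∀ D, StrictlyPseudoconvex k D →
      (∀ (I : Type) (N : ℕ) (δ : ℝ) (F : I → Fin N → ℂ × ℂ → ℂ), 0 < δ → Data D δ F →
        (∀ p ∈ frontier D, Good D F p) → Solvable D F) ∧
      ∀ Ω, D ⊆ Ω → (∀ p ∈ frontier D, ∃ c : ℝ, 0 < c ∧ Contact D Ω p fun t => c * t ^ 2) →
        UniformCorona Ω D ∧ Corona Ω D) ∧
    (∀ k : ℕ∞, 3 ≤ k → ∀ D, StrictlyPseudoconvex k D → ∀ p ∈ frontier D, ∀ κ : ℝ → ℝ,
      Tendsto (fun t => κ t / t ^ 2) (𝓝[>] 0) (𝓝 0) → ∀ e : ℝ, 0 < e →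
        ∃ Ω, StrictlyPseudoconvex 2 Ω ∧ closure D \ {p} ⊆ Ω ∧ p ∉ Ω ∧
          (∀ z ∈ Ω, ∃ w ∈ D, norm2 (z - w) < e) ∧ Contact D Ω p κ ∧
          (Corona Ω D → LocalCorona Ω D p) ∧ (LocalCorona Ω D p → UniformCorona Ball Ball) ∧
          (Spherical D p → (LocalCorona Ω D p ↔ UniformCorona Ball Ball)) ∧
          ((∀ q ∈ frontier D, Spherical D q) → (Corona Ω D ↔ UniformCorona Ball Ball))) ∧
    (∀ k : ℕ∞, StrictlyPseudoconvex k Ball) ∧ ∀ q ∈ frontier Ball, Spherical Ball q := by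
  refine ⟨fun k hk D hD => ?_, fun k hk D hD p hp κ hκ e he => ?_, fun k => ?_,
    fun q hq => spherical_ball hq⟩
  · obtain ⟨ρ, hρ, rfl⟩ := hD.nf hk
    have hA : ∀ (I : Type) (N : ℕ) (δ : ℝ) (F : I → Fin N → ℂ × ℂ → ℂ), 0 < δ →
        Data {x | ρ x < 0} δ F → (∀ p ∈ frontier {x | ρ x < 0}, Good {x | ρ x < 0} F p) →
          Solvable {x | ρ x < 0} F := fun I N δ F hδ hF hg =>
      Pool.Agent.H191.Corona.good_glob hρ hδ hF fun p hp => (hg p hp).good
    refine ⟨hA, fun Ω hΩ hc => ?_⟩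
    have hU : UniformCorona Ω {x | ρ x < 0} := by
      intro N δ hδ
      have hDo : IsOpen {x | ρ x < 0} := isOpen_lt hρ.smooth.continuous continuous_const
      obtain ⟨C, hC⟩ := hA {f : Fin N → ℂ × ℂ → ℂ // (∀ j, HolBdd Ω 1 (f j)) ∧
        ∀ z ∈ {x | ρ x < 0}, δ ≤ ∑ j, ‖f j z‖} N δ (fun f => f.1) hδ
        (fun f => ⟨fun j => ⟨(f.2.1 j).1.mono hΩ, fun z hz => (f.2.1 j).2 z (hΩ hz)⟩, f.2.2⟩)
        (fun p hp => by
          obtain ⟨c, hc0, hcc⟩ := hc p hp
          have hpD : p ∉ {x | ρ x < 0} := by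
            rw [hDo.frontier_eq] at hp
            exact hp.2
          obtain ⟨r, κ, hr, hκ, hsub⟩ := Pool.Agent.H191.Corona.cont_touching hpD hc0 hcc
          exact ⟨Finset.univ, ∅, r, κ, δ, 1, hr, hκ, hδ, Or.inl rfl,
            fun f z hz => f.2.2 z hz.1, fun f j _ => ⟨f.1 j,
              ⟨(f.2.1 j).1.mono hsub, fun z hz => (f.2.1 j).2 z (hsub hz)⟩, fun z _ => rfl⟩⟩)
      exact ⟨C, fun f h1 h2 => hC ⟨f, h1, h2⟩⟩
    exact ⟨hU, corona_of_uniform hΩ hU⟩
  · have hk2 : (2 : ℕ∞) ≤ k := le_trans (by norm_num) hk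
    obtain ⟨O, ρ₀, hO, hcl, hρ₀, hDO, hpd⟩ := hD.defining
    obtain ⟨ρ, hρ, hDρ⟩ := hD.nf hk2
    have hpO : p ∈ O := hcl (frontier_subset_closure hp)
    have hp0 : ρ p = 0 := by
      rw [hDρ] at hp
      exact frontier_lt_subset_eq hρ.smooth.continuous continuous_const hp
    have hcl0 : closure D ⊆ {x | ρ x ≤ 0} := by
      rw [hDρ]
      exact closure_minimal (fun x (hx : ρ x < 0) => hx.le)
        (isClosed_le hρ.smooth.continuous continuous_const)
    have hDD : ∀ z ∈ O, ρ z < 0 ↔ ρ₀ z < 0 := by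
      intro z hz
      have h1 : z ∈ D ↔ ρ z < 0 := by rw [hDρ]; rfl
      have h2 : z ∈ D ↔ ρ₀ z < 0 := by
        rw [hDO]
        exact ⟨fun h => h.2, fun h => ⟨hz, h⟩⟩
      rw [← h1, h2]
    obtain ⟨ρ', h1, h2, h3, h4, h5, h6⟩ := Pool.Agent.H191.Corona.sharp_at hρ hp0 hO hpO
      (hρ₀.of_le (WithTop.coe_le_coe.2 hk)) hDD (hpd p hp).1 hκ (e := e / 2) (by positivity)
    have hsub : {x | ρ x < 0} ⊆ {x | ρ' x < 0} := by
      intro z hz
      refine h3 z (le_of_lt hz) ?_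
      rintro rfl
      have h7 : ρ z < 0 := hz
      rw [hp0] at h7
      exact lt_irrefl _ h7
    have hC : LocalCorona {x | ρ' x < 0} D p → UniformCorona Ball Ball := by
      rw [hDρ]
      exact fun h => uniform_ball (h6 h)
    have hCL : Corona {x | ρ' x < 0} D → LocalCorona {x | ρ' x < 0} D p := by
      intro hc N f δ hδ hf hlow
      obtain ⟨g, hg, hge⟩ := hc N f δ hδ hf hlow
      refine ⟨1, one_pos, g, fun j => ?_, fun z hz => hge z hz.1⟩
      obtain ⟨C, hC1, hC2⟩ := hg j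
      exact ⟨C, hC1.mono inter_subset_left, fun z hz => hC2 z hz.1⟩
    refine ⟨{x | ρ' x < 0}, StrictlyPseudoconvex.of_nf h1.smooth h1, ?_, ?_, ?_, ?_, hCL, hC,
      fun hs => ⟨hC, fun hu => ?_⟩, fun hs => ⟨fun h => hC (hCL h), fun hu => ?_⟩⟩
    · rintro z ⟨hz, hzp⟩
      exact h3 z (hcl0 hz) hzp
    · intro h7
      have h8 : ρ' p < 0 := h7
      rw [h2] at h8
      exact lt_irrefl _ h8
    · intro z hz
      obtain ⟨w, hw, hzw⟩ := h4 z hz
      refine ⟨w, by rw [hDρ]; exact hw, ?_⟩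
      have h7 : norm2 (z - w) = ‖Pool.Agent.H191.Corona.eC (z - w)‖ :=
        Pool.Agent.H191.Corona.En_eq (z - w)
      have h8 := Pool.Agent.H191.Corona.eC_le_norm (z - w)
      linarith
    · rw [hDρ]
      exact h5
    · refine local_of_lcor ?_ (lcor_spherical hs hu Unit)
      rw [hDρ]
      exact hsub
    · rw [hDρ] at hs ⊢
      exact corona_spherical hρ hs hsub hu
  · rw [ball_eq]
    exact StrictlyPseudoconvex.of_nf (Pool.Agent.H191.Corona.mB_contDiff k)
      Pool.Agent.H191.Corona.nf_mB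

end Pool.Agent.Results.MP_ca0fc2_an.ContactOfOrderTwo
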