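import Mathlib
import Pool.Agent.H272.Self.Defs
import Pool.Agent.H272.Self.Conv
import Pool.Agent.H272.Self.Dom

/-!
# The fibres of `M(H^∞(D))` contain `2 ^ (2 ^ ℵ₀)` copies of `M(H^∞(B))`: a zero-one law for the corona

Let `D ⊆ ℂ^m` be a bounded domain with boundary of class `C³`, for instance a strictly pseudoconvex
domain or the ball, and let `p` be an exposed boundary point (at maximal distance from some point; for
the ball all boundary points are exposed). Let `B` be the unit ball of `ℂ^n`, `n ≤ m`. There is one
holomorphic map `Φ : D → B` such that `H^∞(B)`, embedded in `H^∞(D)` by `f ↦ f ∘ Φ`, is the image of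
contractive retractions `R 𝒰` of the Banach algebra `H^∞(D)`, one for each free ultrafilter `𝒰` on `ℕ`; all
of them live over `p`. Their dual maps embed the maximal ideal space of `H^∞(B)` in the fibre over `p` of
the maximal ideal space of `H^∞(D)`, with pairwise disjoint images; points of the corona (not in the
closure of the domain) go to points of the corona, and points of the closure to points of the closure.
Hence: if the corona theorem fails on the ball `B`, then exactly `2 ^ (2 ^ ℵ₀)` points over `p`, as many
as the whole maximal ideal space has, are not in the closure of `D`. For the ball this is a zero-one law: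
the corona is empty, or it has `2 ^ (2 ^ ℵ₀)` points over every boundary point.

Proof. Near `p` the domain `D` is mapped to the ball by a map `G` of all of `D` into `B` which osculates
the sphere (`Pool/Agent/H303/CB`, used for the theorem `BallIsMinimal`), with approximate inverses `P_ε`,
`ψ_ε ∘ G ∘ P_ε → id`, where `ψ_ε` are the automorphisms of `B` which correspond to the dilations. Let `w` be
the normal coordinate, `Re w > 0` on `D`. The functions
`c_k = (1 - 1/(k+2)) exp (- (log w + s_k)² / (10 (k + 2)))`, `s_k = 7 (k + 2)²`, satisfy `∑ |c_k| ≤ 1` on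
the half plane, `c_k → 1` and `∑_{j ≠ k} |c_j| → 0` where `log w + s_k` stays bounded. So
`Φ = ∑ c_k ψ_{ε_k} ∘ G`, `ε_k = exp (- s_k / 2)`, maps `D` into `B`, and `Φ ∘ P_{ε_k} → id`. The retractions
are `R 𝒰 g = lim_𝒰 g ∘ P_{ε_k}`, and the functions `∑_{k ∈ A} c_k` separate the ultrafilters.
-/

set_option autoImplicit false

open Metric Set Filter Topology Cardinal

namespace Pool.Agent.Results.MP_ca0fc2_an.CopiesOfTheBall

open Pool.Agent.H272.Self

/-- (1) Strictly pseudoconvex domains are smooth domains, smooth domains have exposed points, and all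
boundary points of the ball are exposed.

(2) The corona theorem holds on an open set `D` if and only if the corona of `D` is empty.

(3) If `p` is an exposed point of the open set `D` in `ℂ^m`, then for all `n ≤ m` the maximal ideal space
of `H^∞(D)` is self-similar over `p`: the fibre contains pairwise disjoint copies of the maximal ideal
space of `H^∞(B)`, `B` the ball of `ℂ^n`, indexed by the free ultrafilters.

(4) If moreover the corona theorem fails on the ball of `ℂ^n` for some `n ≤ m`, then exactly
`2 ^ (2 ^ ℵ₀)` points over `p` belong to the corona of `D`.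

(5) Zero-one law for the ball: the corona theorem holds, or over every boundary point there are exactly
`2 ^ (2 ^ ℵ₀)` points of the corona. -/
theorem result :
    ((∀ (m : ℕ) (D : Set (V m)), StrictlyPseudoconvex D → SmoothDomain D) ∧
      (∀ (m : ℕ) (D : Set (V m)), 0 < m → SmoothDomain D → ∃ p, Exposed D p) ∧
      ∀ (m : ℕ) (p : V m), ‖p‖ = 1 → Exposed (Ball m) p) ∧
    (∀ (m : ℕ) (D : Set (V m)), IsOpen D → (CoronaTheorem D ↔ Corona D = ∅)) ∧
    (∀ (m n : ℕ) (D : Set (V m)) (p : V m), 0 < m → n ≤ m → IsOpen D → Exposed D p →
      SelfSimilar D p n ∧ (¬ CoronaTheorem (Ball n) →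
        #(Corona D ∩ Fibre D p : Set (MaxSpace D)) = 2 ^ (2 ^ ℵ₀ : Cardinal.{0}))) ∧
    ∀ m : ℕ, CoronaTheorem (Ball m) ∨ ∀ p : V m, ‖p‖ = 1 →
      #(Corona (Ball m) ∩ Fibre (Ball m) p :
        Set (MaxSpace (Ball m))) = 2 ^ (2 ^ ℵ₀ : Cardinal.{0}) := by
  have key : ∀ (m n : ℕ) (D : Set (V m)) (p : V m), 0 < m → n ≤ m → IsOpen D → Exposed D p →
      SelfSimilar D p n ∧ (¬ CoronaTheorem (Ball n) →
        #(Corona D ∩ Fibre D p : Set (MaxSpace D)) = 2 ^ (2 ^ ℵ₀ : Cardinal.{0})) := by
    intro m n D p hm hn hD hp
    obtain ⟨Φ, P, e, h⟩ := Pool.Agent.H272.SS.ssim_exposed hm hD hp hn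
    have h := of_ssim hD h
    exact ⟨h, fun hc => h.card hD (closure_nonempty_iff.1 ⟨p, frontier_subset_closure hp.1⟩) hc⟩
  refine ⟨⟨fun m D h => spc_smooth h, fun m D hm h => exists_exposed hm h,
    fun m p hp => exposed_ball hp⟩, fun m D hD => coronaTheorem_iff hD, key, fun m => ?_⟩
  by_cases hc : CoronaTheorem (Ball m)
  · exact Or.inl hc
  · refine Or.inr fun p hp => ?_
    have hm : 0 < m := by
      rcases Nat.eq_zero_or_pos m with rfl | h
      · rw [Subsingleton.elim p 0, norm_zero] at hp
        exact absurd hp zero_ne_one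
      · exact h
    exact (key m m _ p hm le_rfl isOpen_ball (exposed_ball hp)).2 hc

end Pool.Agent.Results.MP_ca0fc2_an.CopiesOfTheBall
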