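import Mathlib
import Pool.Agent.H191.Corona.Trans

/-!
The corona theorem on the bounded strictly pseudoconvex domains of `ℂ²` is a property of the germs of
the boundary.

1. Local and global corona theorem are equivalent. A solution on `D` is glued from local solutions;
conversely local data are reduced to global data.
2. So Q1 holds on `D` as soon as each boundary germ of `D` occurs on the boundary of some strictly
pseudoconvex domain on which Q1 holds.
3. Each boundary germ occurs on the boundary of a domain `{r < 0}` arbitrarily `C²`-close to the ball,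
equal to it outside a small neighbourhood of `(1, 0)`. So Q1 for all domains is equivalent to Q1 for
these, and to Q1 for convex domains.
4. For domains with spherical boundary the local corona theorem for single data at one boundary point,
Q1 on `D`, Q1 on the ball and the corona theorem with uniform constants on `D` are equivalent.

1. to 3. hold for single data as well as for the corona theorem with uniform constants: `I` is
the index set of a family of data, `I = Unit` is Q1.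

`ℂ × ℂ` has the maximum norm, `ball p r` is a polydisc; only small neighbourhoods of points are used.

Files. `Pool/Agent/H191/Corona`: `Core` (gluing, reduction of local to global data), `Germ`, `Ball`,
`Crd2`, `LinA`, `Cut`, `Norm`, `Near`. They use the library modules `P157G` of the library result
`PseudoconvexLocal` (bounded solutions of the `∂̄` equation, division, localisation, characters).
`Trans` uses the library result `OneDomain` (universal data: from single data to uniform constants on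
the ball).
-/

set_option autoImplicit false

open Metric Set Filter Topology

namespace Pool.Agent.Results.MP_ca0fc2_an.GermsOfTheBoundary

/-- `D` is a bounded strictly pseudoconvex open set with boundary of class `C^k`: `D = {z ∈ O | ρ z < 0}`
for some `ρ` of class `C^k` on a neighbourhood `O` of the closure of `D`, and at every boundary point `p`
the differential of `ρ` is not zero and the Levi form of `ρ` is positive on the complex tangent
vectors `v ≠ 0` (`dρ(v) = dρ(iv) = 0`). The quantity `D²ρ(v, v) + D²ρ(iv, iv)` is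
`4 ∑ ∂²ρ/∂z_j∂z̄_k v_j v̄_k`. -/
structure StrictlyPseudoconvex (k : ℕ∞) (D : Set (ℂ × ℂ)) : Prop where
  bounded : Bornology.IsBounded D
  defining : ∃ (O : Set (ℂ × ℂ)) (ρ : ℂ × ℂ → ℝ), IsOpen O ∧ closure D ⊆ O ∧ ContDiffOn ℝ k ρ O ∧
    D = {z | z ∈ O ∧ ρ z < 0} ∧ ∀ p ∈ frontier D, fderiv ℝ ρ p ≠ 0 ∧
      ∀ v : ℂ × ℂ, v ≠ 0 → fderiv ℝ ρ p v = 0 → fderiv ℝ ρ p (Complex.I • v) = 0 →
        0 < fderiv ℝ (fderiv ℝ ρ) p v v + fderiv ℝ (fderiv ℝ ρ) p (Complex.I • v) (Complex.I • v)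

/-- `g` is holomorphic on `A` and `|g| ≤ C` there. -/
def HolBdd (A : Set (ℂ × ℂ)) (C : ℝ) (g : ℂ × ℂ → ℂ) : Prop :=
  DifferentiableOn ℂ g A ∧ ∀ z ∈ A, ‖g z‖ ≤ C

/-- The question Q1 for `D`: all corona data on `D` have a solution in `H^∞(D)`. -/
def Question (D : Set (ℂ × ℂ)) : Prop :=
  ∀ (N : ℕ) (f : Fin N → ℂ × ℂ → ℂ) (δ : ℝ), 0 < δ → (∀ j, ∃ M, HolBdd D M (f j)) →
    (∀ z ∈ D, δ < ∑ j, ‖f j z‖ ^ 2) →
    ∃ h : Fin N → ℂ × ℂ → ℂ, (∀ j, ∃ C, HolBdd D C (h j)) ∧ ∀ z ∈ D, ∑ j, f j z * h j z = 1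

/-- The corona theorem with constants depending on the number of data and on `δ` only. -/
def Uniform (D : Set (ℂ × ℂ)) : Prop :=
  ∀ (N : ℕ) (δ : ℝ), 0 < δ → ∃ C : ℝ, ∀ f : Fin N → ℂ × ℂ → ℂ, (∀ j, HolBdd D 1 (f j)) →
    (∀ z ∈ D, δ ≤ ∑ j, ‖f j z‖) →
    ∃ h : Fin N → ℂ × ℂ → ℂ, (∀ j, HolBdd D C (h j)) ∧ ∀ z ∈ D, ∑ j, f j z * h j z = 1

/-- A family of corona data on `A`: `|F_{i,j}| ≤ 1` and `∑_j |F_{i,j}| ≥ δ` on `A` for all `i`. -/
def Data {I : Type} {N : ℕ} (A : Set (ℂ × ℂ)) (δ : ℝ) (F : I → Fin N → ℂ × ℂ → ℂ) : Prop :=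
  ∀ i, (∀ j, HolBdd A 1 (F i j)) ∧ ∀ z ∈ A, δ ≤ ∑ j, ‖F i j z‖

/-- The equations `∑_j F_{i,j} g_{i,j} = 1` have solutions in `H^∞(A)` with a common bound. -/
def Solvable {I : Type} {N : ℕ} (A : Set (ℂ × ℂ)) (F : I → Fin N → ℂ × ℂ → ℂ) : Prop :=
  ∃ C : ℝ, ∀ i, ∃ g : Fin N → ℂ × ℂ → ℂ, (∀ j, HolBdd A C (g j)) ∧
    ∀ z ∈ A, ∑ j, F i j z * g j z = 1

/-- The corona theorem on `D` for families of data indexed by `I`. -/
def Corona (I : Type) (D : Set (ℂ × ℂ)) : Prop :=
  ∀ (N : ℕ) (δ : ℝ) (F : I → Fin N → ℂ × ℂ → ℂ), 0 < δ → Data D δ F → Solvable D F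

/-- The corona theorem on `D` near the point `p`, for families indexed by `I`: data on `D ∩ ball p r`
have solutions on some `D ∩ ball p s`. -/
def LocalCorona (I : Type) (D : Set (ℂ × ℂ)) (p : ℂ × ℂ) : Prop :=
  ∀ (N : ℕ) (δ r : ℝ) (F : I → Fin N → ℂ × ℂ → ℂ), 0 < δ → 0 < r → Data (D ∩ ball p r) δ F →
    ∃ s : ℝ, 0 < s ∧ Solvable (D ∩ ball p s) F

/-- The germs of `D` at `p` and of `D'` at `q` are biholomorphically equivalent: a biholomorphic map `φ`
of a neighbourhood `U` of `p` onto a neighbourhood `V` of `q = φ p` maps `U ∩ D` onto `V ∩ D'`. -/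
def GermEquiv (D : Set (ℂ × ℂ)) (p : ℂ × ℂ) (D' : Set (ℂ × ℂ)) (q : ℂ × ℂ) : Prop :=
  ∃ (φ ψ : ℂ × ℂ → ℂ × ℂ) (U V : Set (ℂ × ℂ)), IsOpen U ∧ IsOpen V ∧ p ∈ U ∧ φ p = q ∧
    DifferentiableOn ℂ φ U ∧ DifferentiableOn ℂ ψ V ∧ MapsTo φ U V ∧ MapsTo ψ V U ∧
    (∀ z ∈ U, ψ (φ z) = z) ∧ (∀ w ∈ V, φ (ψ w) = w) ∧ ∀ z ∈ U, z ∈ D ↔ φ z ∈ D'

/-- The unit ball of `ℂ²`. -/
def Ball : Set (ℂ × ℂ) := {z | ‖z.1‖ ^ 2 + ‖z.2‖ ^ 2 < 1}

/-- `D` is spherical at `p`: its germ at `p` is equivalent to the germ of the ball at `(1, 0)`. -/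
def Spherical (D : Set (ℂ × ℂ)) (p : ℂ × ℂ) : Prop := GermEquiv D p Ball (1, 0)

/-- Q1 for the single data on `D` which are continuous on the closure of `D` except at the point `p`. -/
def OneSingularity (D : Set (ℂ × ℂ)) (p : ℂ × ℂ) : Prop :=
  ∀ (N : ℕ) (δ : ℝ) (f : Fin N → ℂ × ℂ → ℂ), 0 < δ → (∀ j, HolBdd D 1 (f j)) →
    (∀ j, ContinuousOn (f j) (closure D \ {p})) → (∀ z ∈ D, δ ≤ ∑ j, ‖f j z‖) →
    ∃ (C : ℝ) (h : Fin N → ℂ × ℂ → ℂ), (∀ j, HolBdd D C (h j)) ∧ ∀ z ∈ D, ∑ j, f j z * h j z = 1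

/-- `{z | r z < 0}` is a small perturbation of the ball near the boundary point `(1, 0)`: `r` is of class
`C^k`, it is equal to `|z|² - 1` outside `ball (1, 0) ε`, and the differences of the values, of the first
and of the second derivatives are everywhere at most `ε`. -/
def NearBall (k : ℕ∞) (ε : ℝ) (r : ℂ × ℂ → ℝ) : Prop :=
  ContDiff ℝ k r ∧ (∀ z, z ∉ ball ((1 : ℂ), (0 : ℂ)) ε → r z = ‖z.1‖ ^ 2 + ‖z.2‖ ^ 2 - 1) ∧
    ∀ z, |r z - (‖z.1‖ ^ 2 + ‖z.2‖ ^ 2 - 1)| ≤ ε ∧
      ‖fderiv ℝ r z - fderiv ℝ (fun z : ℂ × ℂ => ‖z.1‖ ^ 2 + ‖z.2‖ ^ 2 - 1) z‖ ≤ ε ∧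
      ‖fderiv ℝ (fderiv ℝ r) z -
        fderiv ℝ (fderiv ℝ (fun z : ℂ × ℂ => ‖z.1‖ ^ 2 + ‖z.2‖ ^ 2 - 1)) z‖ ≤ ε

theorem ball_eq : Ball = Pool.Agent.H191.Corona.B2 := by
  ext z
  show ‖z.1‖ ^ 2 + ‖z.2‖ ^ 2 < 1 ↔ ‖z.1‖ ^ 2 + ‖z.2‖ ^ 2 - 1 < 0
  rw [sub_neg]

theorem corona_unit (D : Set (ℂ × ℂ)) : Corona Unit D ↔ Question D := by
  constructor
  · intro hc N f δ hδ hf hlow
    choose M hM using hf
    have hS : ∀ j, |M j| ≤ ∑ l, |M l| := fun j =>
      Finset.single_le_sum (f := fun l => |M l|) (fun l _ => abs_nonneg _) (Finset.mem_univ j)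
    set S : ℝ := 1 + ∑ l, |M l| with hSdef
    have hS0 : 0 ≤ ∑ l, |M l| := Finset.sum_nonneg fun l _ => abs_nonneg _
    have hS1 : 1 ≤ S := by linarith
    have hSp : 0 < S := by linarith
    have hSc : (S : ℂ) ≠ 0 := by exact_mod_cast hSp.ne'
    have hb : ∀ j, ∀ z ∈ D, ‖f j z‖ ≤ S := fun j z hz => by
      have h1 := (hM j).2 z hz
      have h2 := le_abs_self (M j)
      have h3 := hS j
      linarith
    have hn : ∀ j z, ‖(S : ℂ)⁻¹ * f j z‖ = S⁻¹ * ‖f j z‖ := fun j z => by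
      rw [norm_mul, norm_inv, Complex.norm_real, Real.norm_of_nonneg hSp.le]
    obtain ⟨C, hC⟩ := hc N (δ / S ^ 2) (fun _ j z => (S : ℂ)⁻¹ * f j z) (by positivity)
      (fun _ => ⟨fun j => ⟨(hM j).1.const_mul _, fun z hz => by
        rw [hn, inv_mul_le_iff₀ hSp, mul_one]; exact hb j z hz⟩, fun z hz => by
        have h1 := hlow z hz
        have h2 : ∑ j, ‖f j z‖ ^ 2 ≤ S ^ 2 * ∑ j, ‖(S : ℂ)⁻¹ * f j z‖ := by
          rw [Finset.mul_sum]
          refine Finset.sum_le_sum fun j _ => ?_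
          rw [hn]
          have h3 : S ^ 2 * (S⁻¹ * ‖f j z‖) = S * ‖f j z‖ := by
            field_simp
          rw [h3, sq]
          exact mul_le_mul_of_nonneg_right (hb j z hz) (norm_nonneg _)
        rw [div_le_iff₀ (by positivity), mul_comm]
        exact h1.le.trans h2⟩)
    obtain ⟨g, hg, he⟩ := hC ()
    refine ⟨fun j z => (S : ℂ)⁻¹ * g j z, fun j => ⟨S⁻¹ * C, (hg j).1.const_mul _, fun z hz => ?_⟩,
      fun z hz => ?_⟩
    · rw [norm_mul, norm_inv, Complex.norm_real, Real.norm_of_nonneg hSp.le]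
      exact mul_le_mul_of_nonneg_left ((hg j).2 z hz) (by positivity)
    · rw [← he z hz]
      refine Finset.sum_congr rfl fun j _ => ?_
      ring
  · intro hq N δ F hδ hF
    obtain ⟨h, hh, he⟩ := hq N (F ()) (δ ^ 2 / (N + 1)) (by positivity)
      (fun j => ⟨1, (hF ()).1 j⟩) (fun z hz => by
        have h1 := (hF ()).2 z hz
        have h2 := sq_sum_le_card_mul_sum_sq (s := Finset.univ) (f := fun j : Fin N => ‖F () j z‖)
        rw [Finset.card_univ, Fintype.card_fin] at h2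
        have h3 : δ ^ 2 ≤ (∑ j, ‖F () j z‖) ^ 2 := pow_le_pow_left₀ hδ.le h1 2
        have h4 : 0 < ∑ j, ‖F () j z‖ ^ 2 := by
          have h5 : 0 ≤ ∑ j, ‖F () j z‖ ^ 2 := Finset.sum_nonneg fun j _ => sq_nonneg _
          rcases h5.lt_or_eq with h6 | h6
          · exact h6
          · rw [← h6] at h2
            nlinarith
        rw [div_lt_iff₀ (by positivity)]
        nlinarith)
    choose C hC using hh
    refine ⟨∑ j, |C j|, fun i => ⟨h, fun j => ⟨(hC j).1, fun z hz => ?_⟩, he⟩⟩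
    exact (((hC j).2 z hz).trans (le_abs_self _)).trans
      (Finset.single_le_sum (f := fun l => |C l|) (fun l _ => abs_nonneg _) (Finset.mem_univ j))

theorem corona_uniform (D : Set (ℂ × ℂ)) : (∀ I, Corona I D) ↔ Uniform D := by
  constructor
  · intro hc N δ hδ
    obtain ⟨C, hC⟩ := hc {f : Fin N → ℂ × ℂ → ℂ // (∀ j, HolBdd D 1 (f j)) ∧
      ∀ z ∈ D, δ ≤ ∑ j, ‖f j z‖} N δ (fun f => f.1) hδ (fun f => f.2)
    exact ⟨C, fun f h1 h2 => hC ⟨f, h1, h2⟩⟩
  · intro hu I N δ F hδ hF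
    obtain ⟨C, hC⟩ := hu N δ hδ
    exact ⟨C, fun i => hC (F i) (hF i).1 (hF i).2⟩

theorem tangent {ρ : ℂ × ℂ → ℝ} {p v : ℂ × ℂ} (h : Pool.Agent.P157G.dd ρ p v = 0) :
    fderiv ℝ ρ p v = 0 ∧ fderiv ℝ ρ p (Complex.I • v) = 0 := by
  have h1 : ∀ u, 2 * (Pool.Agent.P157G.dd ρ p u).re = fderiv ℝ ρ p u := fun u =>
    Pool.Agent.P157G.G5z_lin (fderiv ℝ ρ p) u
  have h2 : Pool.Agent.P157G.dd ρ p (Complex.I • v) = Complex.I * Pool.Agent.P157G.dd ρ p v := by
    unfold Pool.Agent.P157G.dd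
    simp only [Prod.smul_fst, Prod.smul_snd, smul_eq_mul]
    ring
  refine ⟨?_, ?_⟩
  · rw [← h1 v, h]
    simp
  · rw [← h1, h2, h]
    simp

theorem StrictlyPseudoconvex.nf {k : ℕ∞} (hk : 2 ≤ k) {D : Set (ℂ × ℂ)}
    (hD : StrictlyPseudoconvex k D) : ∃ ρ, Pool.Agent.P157G.NF ρ ∧ D = {x | ρ x < 0} := by
  obtain ⟨O, ρ, hO, hcl, hρ, hDO, hp⟩ := hD.defining
  exact Pool.Agent.P157G.nf_of hD.bounded hO hcl (hρ.of_le (WithTop.coe_le_coe.2 hk)) hDO
    (fun p hpf => (hp p hpf).1)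
    (fun p hpf v hv hdd => (hp p hpf).2 v hv (tangent hdd).1 (tangent hdd).2)

theorem StrictlyPseudoconvex.of_near {k : ℕ∞} {r : ℂ × ℂ → ℝ} (hr : ContDiff ℝ k r)
    (h : Pool.Agent.P157G.NF r) : StrictlyPseudoconvex k {z | r z < 0} := by
  refine ⟨h.bdd.subset fun z (hz : r z < 0) => hz.le, univ, r, isOpen_univ, subset_univ _,
    hr.contDiffOn, by ext z; simp, fun p hp => ?_⟩
  have hp0 : r p = 0 := frontier_lt_subset_eq h.smooth.continuous continuous_const hp
  exact ⟨h.nd p hp0, fun v hv h1 h2 => h.levi p hp0 v hv (Pool.Agent.P157G.G7b1_dd r p v h1 h2)⟩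

theorem NearBall.cls {k : ℕ∞} (hk : 2 ≤ k) {ε : ℝ} {r : ℂ × ℂ → ℝ} (h : NearBall k ε r) :
    Pool.Agent.P157G.Cls ε Pool.Agent.H191.Corona.mB r := by
  refine ⟨h.1.of_le (WithTop.coe_le_coe.2 hk), fun z => ⟨?_, ?_, ?_⟩⟩
  · rw [abs_sub_comm]
    exact (h.2.2 z).1
  · rw [norm_sub_rev]
    exact (h.2.2 z).2.1
  · exact (Pool.Agent.H191.Corona.nsr _ _).le.trans (h.2.2 z).2.2

theorem NearBall.of_cls {k : ℕ∞} {ε : ℝ} {r : ℂ × ℂ → ℝ} (hr : ContDiff ℝ k r)
    (h : Pool.Agent.P157G.Cls ε Pool.Agent.H191.Corona.mB r)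
    (h' : ∀ z, z ∉ ball ((1 : ℂ), (0 : ℂ)) ε → r z = Pool.Agent.H191.Corona.mB z) :
    NearBall k ε r := by
  refine ⟨hr, h', fun z => ⟨?_, ?_, ?_⟩⟩
  · rw [abs_sub_comm]
    exact (h.2 z).1
  · rw [norm_sub_rev]
    exact (h.2 z).2.1
  · exact (Pool.Agent.H191.Corona.nsr _ _).le.trans (h.2 z).2.2

/-- every boundary germ occurs on small perturbations of the ball -/
theorem normal_form {k : ℕ∞} (hk : 2 ≤ k) {D : Set (ℂ × ℂ)} (hD : StrictlyPseudoconvex k D)
    {p : ℂ × ℂ} (hp : p ∈ frontier D) {ε : ℝ} (hε : 0 < ε) :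
    ∃ r, NearBall k ε r ∧ r (1, 0) = 0 ∧ GermEquiv D p {z | r z < 0} (1, 0) := by
  obtain ⟨O, ρ, hO, hcl, hρ, hDO, hpd⟩ := hD.defining
  have hpO : p ∈ O := hcl (frontier_subset_closure hp)
  have hDo : IsOpen D := by
    have : D = O ∩ ρ ⁻¹' (Set.Iio 0) := by rw [hDO]; rfl
    rw [this]
    exact hρ.continuousOn.isOpen_inter_preimage hO isOpen_Iio
  have hρc : ContinuousAt ρ p := hρ.continuousOn.continuousAt (hO.mem_nhds hpO)
  have hρp : ρ p = 0 := by
    have hpD : p ∉ D := by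
      rw [hDo.frontier_eq] at hp
      exact hp.2
    refine le_antisymm ?_ ?_
    · by_contra hc
      have h1 : ∀ᶠ y in 𝓝 p, 0 < ρ y :=
        (continuousAt_const (y := (0 : ℝ))).eventually_lt hρc (not_le.mp hc)
      obtain ⟨y, hy, hyD⟩ := mem_closure_iff_nhds.mp (frontier_subset_closure hp) _ h1
      rw [hDO] at hyD
      exact absurd hyD.2 (not_lt.mpr (le_of_lt hy))
    · by_contra hc
      exact hpD (by rw [hDO]; exact ⟨hpO, not_le.mp hc⟩)
  -- a smooth bump
  obtain ⟨t, ht, htO⟩ := Metric.isOpen_iff.1 hO p hpO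
  let χ : ContDiffBump p := ⟨t / 4, t / 2, by positivity, by linarith⟩
  have hχ : ContDiff ℝ k (χ : ℂ × ℂ → ℝ) := χ.contDiff
  obtain ⟨ρ', hρ'⟩ : ∃ ρ' : ℂ × ℂ → ℝ, ρ' = fun z => χ z * ρ z := ⟨_, rfl⟩
  have hρk : ContDiff ℝ k ρ' := by
    rw [hρ', contDiff_iff_contDiffAt]
    intro z
    by_cases hz : z ∈ ball p t
    · exact hχ.contDiffAt.mul (hρ.contDiffAt (hO.mem_nhds (htO hz)))
    · have h3 : t ≤ dist z p := not_lt.1 hz
      have h4 : {y | t / 2 < dist y p} ∈ 𝓝 z :=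
        (isOpen_lt continuous_const (continuous_id.dist continuous_const)).mem_nhds
          (by show t / 2 < dist z p; linarith)
      have h5 : (fun z => χ z * ρ z) =ᶠ[𝓝 z] fun _ => (0 : ℝ) := by
        filter_upwards [h4] with y hy
        rw [χ.zero_of_le_dist (le_of_lt hy), zero_mul]
      exact contDiffAt_const.congr_of_eventuallyEq h5
  have hloc : ρ' =ᶠ[𝓝 p] ρ := by
    filter_upwards [χ.eventuallyEq_one] with y hy
    rw [hρ']
    show χ y * ρ y = ρ y
    rw [hy]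
    simp
  have hd1 : fderiv ℝ ρ' p = fderiv ℝ ρ p := hloc.fderiv_eq
  have hd2 : fderiv ℝ (fderiv ℝ ρ') p = fderiv ℝ (fderiv ℝ ρ) p := hloc.fderiv.fderiv_eq
  obtain ⟨r, h1, h2, h3, h4, h5⟩ := Pool.Agent.H191.Corona.to_ball hk hρk (p := p)
    (by rw [hloc.eq_of_nhds]; exact hρp) (by rw [hd1]; exact (hpd p hp).1)
    (fun v hv hdd => by
      have h6 := tangent hdd
      rw [hd1] at h6
      show 0 < fderiv ℝ (fderiv ℝ ρ') p v v + fderiv ℝ (fderiv ℝ ρ') p (Complex.I • v) (Complex.I • v)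
      rw [hd2]
      exact (hpd p hp).2 v hv h6.1 h6.2) hε
  refine ⟨r, NearBall.of_cls h1 h2 h3, h4, ?_⟩
  refine Pool.Agent.H191.Corona.GEq.trans (Pool.Agent.H191.Corona.geq_of_eventually ?_) h5
  filter_upwards [hloc, hO.mem_nhds hpO] with z hz hzO
  show z ∈ D ↔ ρ' z < 0
  rw [hz, hDO]
  exact ⟨fun h => h.2, fun h => ⟨hzO, h⟩⟩

/-- The local corona theorem at points of the closure follows from the corona theorem on `D`. -/
theorem local_of_corona {ρ : ℂ × ℂ → ℝ} (h : Pool.Agent.P157G.NF ρ) {I : Type}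
    (hc : Corona I {z | ρ z < 0}) {p : ℂ × ℂ} (hp : ρ p ≤ 0) : LocalCorona I {z | ρ z < 0} p := by
  intro N δ r F hδ hr hF
  obtain ⟨s, hs, C, hC⟩ := Pool.Agent.H191.Corona.local_of_global h (I := I)
    (fun N δ F hδ hF => hc N δ F hδ hF) hp hr hδ hF
  exact ⟨s, hs, C, hC⟩

theorem one_mem_frontier : ((1 : ℂ), (0 : ℂ)) ∈ frontier Ball := by
  rw [ball_eq]
  have ho : IsOpen Pool.Agent.H191.Corona.B2 :=
    isOpen_lt (Pool.Agent.H191.Corona.mB_contDiff 0).continuous continuous_const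
  rw [ho.frontier_eq]
  refine ⟨?_, ?_⟩
  · rw [Metric.mem_closure_iff]
    intro ε hε
    refine ⟨(((1 - min (ε / 2) 1 : ℝ) : ℂ), 0), ?_, ?_⟩
    · show ‖((1 - min (ε / 2) 1 : ℝ) : ℂ)‖ ^ 2 + ‖(0 : ℂ)‖ ^ 2 - 1 < 0
      have h1 : 0 < min (ε / 2) 1 := lt_min (by linarith) one_pos
      have h2 : min (ε / 2) 1 ≤ 1 := min_le_right _ _
      rw [Complex.norm_real, Real.norm_eq_abs, sq_abs, norm_zero]
      nlinarith
    · rw [Prod.dist_eq, max_lt_iff]
      have h1 : 0 < min (ε / 2) 1 := lt_min (by linarith) one_pos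
      have h2 : min (ε / 2) 1 ≤ ε / 2 := min_le_left _ _
      constructor
      · show dist (1 : ℂ) ((1 - min (ε / 2) 1 : ℝ) : ℂ) < ε
        rw [Complex.dist_eq]
        have h3 : (1 : ℂ) - ((1 - min (ε / 2) 1 : ℝ) : ℂ) = ((min (ε / 2) 1 : ℝ) : ℂ) := by
          push_cast; ring
        rw [h3, Complex.norm_real, Real.norm_of_nonneg h1.le]
        linarith
      · show dist (0 : ℂ) 0 < ε
        rw [dist_self]; exact hε
  · intro h
    have h1 : ‖(1 : ℂ)‖ ^ 2 + ‖(0 : ℂ)‖ ^ 2 - 1 < 0 := h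
    simp at h1

theorem uniform_ball (h : Pool.Agent.H191.Corona.UnifV) : Uniform Ball :=
  (corona_uniform Ball).1 fun I => by
    rw [ball_eq]
    exact Pool.Agent.H191.Corona.unif_cor h I

theorem frontier_nonempty {k : ℕ∞} (hk : 2 ≤ k) {D : Set (ℂ × ℂ)} (hD : StrictlyPseudoconvex k D)
    (hne : D.Nonempty) : (frontier D).Nonempty := by
  obtain ⟨ρ, hρ, rfl⟩ := hD.nf hk
  rw [nonempty_iff_ne_empty]
  intro h0
  rcases isClopen_iff.1 (isClopen_iff_frontier_eq_empty.2 h0) with h1 | h1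
  · exact hne.ne_empty h1
  · have h2 := hD.bounded
    rw [h1] at h2
    exact (NormedSpace.unbounded_univ ℝ (ℂ × ℂ)) h2

/-- **The corona problem on strictly pseudoconvex domains of `ℂ²` is a problem on germs of the boundary.**
Dictionary: `Corona Unit D` is Q1 for `D`, `Corona I D` for all `I` is the corona theorem with uniform
constants. Let `k ≥ 2` (`k = ∞` included). For all `I`:
(a) `Corona I D` is equivalent to the local corona theorems at all boundary points of `D`;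
(b) `Corona I D` holds if every boundary germ of `D` is equivalent to a boundary germ of some strictly
pseudoconvex `D'` with `Corona I D'`;
(c) the corona theorem for all strictly pseudoconvex `D` is equivalent to that for the connected
ones, for the convex ones, for all perturbations of the ball which are `C²`-small and concentrated near
`(1, 0)`, and to the local one at `(1, 0)` for these.
Spherical domains:
(d) if the local corona theorem for single data holds at one spherical boundary point of one domain,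
then the corona theorem holds on the ball with uniform constants;
(e) for nonempty `D` which are spherical at all boundary points the following are equivalent: Q1 on `D`,
the corona theorem with uniform constants on `D`, the same two for the ball, and the local corona
theorem for single data at one boundary point of `D`;
(f) every nonempty `D` has a boundary point `p` such that Q1 on `D` for the data which are continuous on
the closure without `p` implies the corona theorem with uniform constants on all domains which are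
spherical at all boundary points. -/
theorem result :
    (∀ D, (Corona Unit D ↔ Question D) ∧ ((∀ I, Corona I D) ↔ Uniform D)) ∧
    (∀ k : ℕ∞, 2 ≤ k → ∀ I : Type,
      (∀ D, StrictlyPseudoconvex k D → (Corona I D ↔ ∀ p ∈ frontier D, LocalCorona I D p)) ∧
      (∀ D, StrictlyPseudoconvex k D → (∀ p ∈ frontier D, ∃ D' q, StrictlyPseudoconvex k D' ∧
        q ∈ frontier D' ∧ GermEquiv D p D' q ∧ Corona I D') → Corona I D) ∧
      List.TFAE
        [∀ D, StrictlyPseudoconvex k D → Corona I D,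
         ∀ D, StrictlyPseudoconvex k D → IsConnected D → Corona I D,
         ∀ D, StrictlyPseudoconvex k D → D.Nonempty → Convex ℝ D → Corona I D,
         ∃ ε : ℝ, 0 < ε ∧ ∀ r, NearBall k ε r → Corona I {z | r z < 0},
         ∃ ε : ℝ, 0 < ε ∧ ∀ r, NearBall k ε r → LocalCorona I {z | r z < 0} (1, 0)]) ∧
    (∀ k : ℕ∞, 2 ≤ k → ∀ D, StrictlyPseudoconvex k D →
      (∀ p ∈ frontier D, Spherical D p → LocalCorona Unit D p → Uniform Ball) ∧
      (D.Nonempty → (∀ p ∈ frontier D, Spherical D p) →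
        List.TFAE [Question D, Uniform D, Question Ball, Uniform Ball,
          ∃ p ∈ frontier D, LocalCorona Unit D p]) ∧
      (D.Nonempty → ∃ p ∈ frontier D, OneSingularity D p → ∀ D', StrictlyPseudoconvex k D' →
        (∀ q ∈ frontier D', Spherical D' q) → Uniform D')) := by
  have hA : ∀ k : ℕ∞, 2 ≤ k → ∀ I D, StrictlyPseudoconvex k D →
      (Corona I D ↔ ∀ p ∈ frontier D, LocalCorona I D p) := by
    intro k hk I D hD
    obtain ⟨ρ, hρ, rfl⟩ := hD.nf hk
    exact Pool.Agent.H191.Corona.cor_iff hρ I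
  have hB : ∀ I D p D' q, GermEquiv D p D' q → (LocalCorona I D p ↔ LocalCorona I D' q) :=
    fun I D p D' q h => Pool.Agent.H191.Corona.GEq.iff h I
  have hBa : ∀ I, Corona I Ball ↔ ∀ p ∈ frontier Ball, LocalCorona I Ball p := by
    intro I
    rw [ball_eq]
    exact Pool.Agent.H191.Corona.cor_iff Pool.Agent.H191.Corona.nf_mB I
  -- spherical domains
  have hS1 : ∀ D p, Spherical D p → LocalCorona Unit D p → Uniform Ball := by
    intro D p hs hl
    have h1 : LocalCorona Unit Ball (1, 0) := (hB Unit D p Ball (1, 0) hs).1 hl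
    rw [ball_eq] at h1
    exact uniform_ball (Pool.Agent.H191.Corona.unif_of_local h1)
  have hS2 : ∀ k : ℕ∞, 2 ≤ k → ∀ D, StrictlyPseudoconvex k D → (∀ p ∈ frontier D, Spherical D p) →
      Uniform Ball → Uniform D := by
    intro k hk D hD hs hu
    refine (corona_uniform D).1 fun I => (hA k hk I D hD).2 fun p hp => ?_
    exact (hB I D p Ball (1, 0) (hs p hp)).2 ((hBa I).1 ((corona_uniform Ball).2 hu I) (1, 0)
      one_mem_frontier)
  refine ⟨fun D => ⟨corona_unit D, corona_uniform D⟩, fun k hk I => ⟨hA k hk I, ?_, ?_⟩,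
    fun k hk D hD => ⟨fun p _ hs hl => hS1 D p hs hl, ?_, ?_⟩⟩
  · intro D hD hs
    refine (hA k hk I D hD).2 fun p hp => ?_
    obtain ⟨D', q, hD', hq, hg, hc⟩ := hs p hp
    exact (hB I D p D' q hg).2 ((hA k hk I D' hD').1 hc q hq)
  · tfae_have 1 → 2 := fun h D hD _ => h D hD
    tfae_have 2 → 3 := fun h D hD hne hcv => h D hD (hcv.isConnected hne)
    tfae_have 3 → 4 := by
      intro h
      refine ⟨1 / 4, by norm_num, fun r hr => ?_⟩
      have hcl := hr.cls hk
      refine h _ (StrictlyPseudoconvex.of_near hr.1 (Pool.Agent.H191.Corona.nf_near le_rfl hcl)) ?_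
        (Pool.Agent.H191.Corona.convex_near le_rfl hcl)
      refine ⟨0, ?_⟩
      have h1 := (abs_le.1 (hr.2.2 0).1).2
      simp only [Prod.fst_zero, Prod.snd_zero, norm_zero] at h1
      show r 0 < 0
      linarith
    tfae_have 4 → 5 := by
      rintro ⟨ε, hε, h⟩
      refine ⟨min ε (1 / 4), by positivity, fun r hr => ?_⟩
      have hr' : NearBall k ε r := ⟨hr.1, fun z hz => hr.2.1 z fun hz' =>
        hz (ball_subset_ball (min_le_left _ _) hz'), fun z => ⟨(hr.2.2 z).1.trans (min_le_left _ _),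
          (hr.2.2 z).2.1.trans (min_le_left _ _), (hr.2.2 z).2.2.trans (min_le_left _ _)⟩⟩
      have hnf := Pool.Agent.H191.Corona.nf_near (min_le_right _ _) (hr.cls hk)
      by_cases h0 : r (1, 0) ≤ 0
      · exact local_of_corona hnf (h r hr') h0
      · -- `(1, 0)` has a neighbourhood disjoint from the domain
        intro N δ t F hδ ht hF
        have h1 : ∀ᶠ z in 𝓝 ((1 : ℂ), (0 : ℂ)), 0 < r z :=
          (continuousAt_const (y := (0 : ℝ))).eventually_lt hr.1.continuous.continuousAt (not_le.mp h0)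
        obtain ⟨s, hs, hs'⟩ := Metric.eventually_nhds_iff_ball.1 h1
        have he : ∀ z, z ∉ {z | r z < 0} ∩ ball ((1 : ℂ), (0 : ℂ)) s := fun z hz =>
          absurd (hs' z hz.2) (not_lt.2 (le_of_lt hz.1))
        exact ⟨s, hs, 0, fun i => ⟨fun _ _ => 0, fun j => ⟨differentiableOn_const _, fun z hz =>
          absurd hz (he z)⟩, fun z hz => absurd hz (he z)⟩⟩
    tfae_have 5 → 1 := by
      rintro ⟨ε, hε, h⟩ D hD
      refine (hA k hk I D hD).2 fun p hp => ?_
      obtain ⟨r, hr, -, hg⟩ := normal_form hk hD hp hε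
      exact (hB I D p _ (1, 0) hg).2 (h r hr)
    tfae_finish
  · intro hne hs
    obtain ⟨p, hp⟩ := frontier_nonempty hk hD hne
    tfae_have 1 → 5 := fun h => ⟨p, hp, (hA k hk Unit D hD).1 ((corona_unit D).2 h) p hp⟩
    tfae_have 5 → 4 := fun ⟨q, hq, hl⟩ => hS1 D q (hs q hq) hl
    tfae_have 4 → 2 := hS2 k hk D hD hs
    tfae_have 2 → 1 := fun h => (corona_unit D).1 ((corona_uniform D).2 h Unit)
    tfae_have 4 → 3 := fun h => (corona_unit Ball).1 ((corona_uniform Ball).2 h Unit)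
    tfae_have 3 → 4 := by
      intro h
      refine hS1 Ball (1, 0) ?_ ((hBa Unit).1 ((corona_unit Ball).2 h) (1, 0) one_mem_frontier)
      exact Pool.Agent.H191.Corona.geq_of_eventually (Eventually.of_forall fun _ => Iff.rfl)
    tfae_finish
  · intro hne
    obtain ⟨ρ, hρ, rfl⟩ := hD.nf hk
    obtain ⟨p, hp, h⟩ := Pool.Agent.H191.Corona.unif_of_one hρ hne
    exact ⟨p, hp, fun ho D' hD' hs => hS2 k hk D' hD' hs (uniform_ball (h ho))⟩

end Pool.Agent.Results.MP_ca0fc2_an.GermsOfTheBoundary
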